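import Pool.Agent.U84.AWQ.Stm2

/-! # Project AWQ, package POS: the position of two projections -/

set_option autoImplicit false

namespace Pool.Agent.U694.AWQ

open Pool.Agent.R456.CL Pool.Agent.U84.AWQ

universe u

section

variable {A : Type u} [CStarAlgebra A]

/-- the range projection of a self-adjoint element. -/
theorem exists_RP (hS : PSup A) (hC : PCut A) (x : A) (hx : star x = x) :
    ∃ R : A, PJ R ∧ R * x = x ∧ x * R = x ∧ ∀ y : A, y * x = 0 → y * R = 0 := by
  obtain ⟨R, hR, h1, h2⟩ := hS {k : A // PJ k ∧ ∃ b, k = x * b} (fun k => k.1) (fun k => k.2.1)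
  have hRs : star R = R := hR.isSelfAdjoint
  have key : ∀ y : A, y * x = 0 → y * R = 0 := by
    intro y hy
    apply h2
    rintro ⟨k, hk, b, rfl⟩
    change y * (x * b) = 0
    rw [← mul_assoc, hy, zero_mul]
  have h0 : (1 - R) * x = 0 := by
    rw [← norm_le_zero_iff]
    apply le_of_forall_pos_le_add
    intro ε hε
    rw [zero_add]
    obtain ⟨k, s, hk, _, _, _, _, _, h6, _, h8⟩ := hC x ε hε
    have hks : star k = k := hk.isSelfAdjoint
    have hkR : k * R = k := by
      refine h1 ⟨k, hk, x * (s * s), ?_⟩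
      rw [← h6, hx, mul_assoc]
    have hRk : R * k = k := by
      have := congrArg star hkR
      rwa [star_mul, hRs, hks] at this
    have e1 : (1 - R) * x = (1 - R) * ((1 - k) * x) := by
      have : (1 - R) * k = 0 := by rw [sub_mul, one_mul, hRk, sub_self]
      rw [← mul_assoc, mul_sub, mul_one, this, sub_zero]
    have e2 : ‖(1 - k) * x‖ ≤ ε := by
      have : star (x * (1 - k)) = (1 - k) * x := by
        rw [star_mul, star_sub, star_one, hks, hx]
      rw [← this, norm_star]
      exact h8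
    have e3 : ‖(1 - R : A)‖ ≤ 1 := IsStarProjection.norm_le _ hR.one_sub
    rw [e1]
    calc ‖(1 - R) * ((1 - k) * x)‖ ≤ ‖(1 - R : A)‖ * ‖(1 - k) * x‖ := norm_mul_le _ _
      _ ≤ 1 * ε := mul_le_mul e3 e2 (norm_nonneg _) zero_le_one
      _ = ε := one_mul _
  have hRx : R * x = x := by
    rw [sub_mul, one_mul, sub_eq_zero] at h0
    exact h0.symm
  refine ⟨R, hR, hRx, ?_, key⟩
  have := congrArg star hRx
  rwa [star_mul, hx, hRs] at this

/-- the sup of two projections. -/
theorem exists_sup (hS : PSup A) (e f : A) (he : PJ e) (hf : PJ f) :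
    ∃ E : A, PJ E ∧ e * E = e ∧ f * E = f ∧ ∀ x : A, x * e = 0 → x * f = 0 → x * E = 0 := by
  obtain ⟨E, hE, h1, h2⟩ := hS (ULift Bool) (fun b => if b.down then e else f)
    (by rintro ⟨_ | _⟩ <;> simp [he, hf])
  refine ⟨E, hE, ?_, ?_, ?_⟩
  · simpa using h1 ⟨true⟩
  · simpa using h1 ⟨false⟩
  · intro x hx1 hx2
    apply h2
    rintro ⟨_ | _⟩ <;> simp [hx1, hx2]

/-- the part of `e` orthogonal to `f`. -/
theorem exists_orth (hS : PSup A) (e f : A) (he : PJ e) (hf : PJ f) :
    ∃ e2 : A, PJ e2 ∧ e2 * e = e2 ∧ e * e2 = e2 ∧ e2 * f = 0 ∧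
      ∀ u : A, e * u = u → f * u = 0 → e2 * u = u := by
  have hes : star e = e := he.isSelfAdjoint
  have hfs : star f = f := hf.isSelfAdjoint
  obtain ⟨s, hs, h1, h2, h3⟩ := exists_sup hS (1 - e) f he.one_sub hf
  have hss : star s = s := hs.isSelfAdjoint
  have h1' : s * (1 - e) = 1 - e := by
    have := congrArg star h1
    rwa [star_mul, hss, star_sub, star_one, hes] at this
  have h2' : s * f = f := by
    have := congrArg star h2
    rwa [star_mul, hss, hfs] at this
  have a1 : (1 - s) * (1 - e) = 0 := by rw [sub_mul, one_mul, h1', sub_self]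
  have a2 : (1 - s) * e = 1 - s := by
    rw [mul_sub, mul_one, sub_eq_zero] at a1
    exact a1.symm
  refine ⟨1 - s, hs.one_sub, a2, ?_, ?_, ?_⟩
  · have := congrArg star a2
    rwa [star_mul, star_sub, star_one, hss, hes] at this
  · rw [sub_mul, one_mul, h2', sub_self]
  · intro u hu1 hu2
    have b1 : star u * (1 - e) = 0 := by
      have : star ((1 - e) * u) = 0 := by rw [sub_mul, one_mul, hu1, sub_self, star_zero]
      rwa [star_mul, star_sub, star_one, hes] at this
    have b2 : star u * f = 0 := by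
      have : star (f * u) = 0 := by rw [hu2, star_zero]
      rwa [star_mul, hfs] at this
    have b3 := h3 (star u) b1 b2
    have b4 : s * u = 0 := by
      have := congrArg star b3
      rwa [star_mul, star_star, hss, star_zero] at this
    rw [sub_mul, one_mul, b4, sub_zero]

/-- polar decomposition of a self-adjoint element, by the functional calculus. -/
theorem exists_posneg (a : A) (ha : star a = a) :
    ∃ b c : A, star b = b ∧ star c = c ∧ b * c = 0 ∧ c * b = 0 ∧ b - c = a ∧
      ∀ y : A, y * (a * a) = (a * a) * y → y * (b + c) = (b + c) * y := by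
  have hsa : IsSelfAdjoint a := ha
  refine ⟨cfc (fun x : ℝ => max x 0) a, cfc (fun x : ℝ => max (-x) 0) a, ?_, ?_, ?_, ?_, ?_, ?_⟩
  · exact (cfc_predicate (R := ℝ) (p := IsSelfAdjoint) (fun x : ℝ => max x 0) a)
  · exact (cfc_predicate (R := ℝ) (p := IsSelfAdjoint) (fun x : ℝ => max (-x) 0) a)
  · rw [← cfc_mul (fun x : ℝ => max x 0) (fun x : ℝ => max (-x) 0) a (by fun_prop) (by fun_prop)]
    rw [← cfc_const_zero ℝ a]
    apply cfc_congr
    intro x _
    rcases le_total x 0 with h | h
    · simp [max_eq_right h]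
    · simp [max_eq_right (neg_nonpos.mpr h)]
  · rw [← cfc_mul (fun x : ℝ => max (-x) 0) (fun x : ℝ => max x 0) a (by fun_prop) (by fun_prop)]
    rw [← cfc_const_zero ℝ a]
    apply cfc_congr
    intro x _
    rcases le_total x 0 with h | h
    · simp [max_eq_right h]
    · simp [max_eq_right (neg_nonpos.mpr h)]
  · rw [← cfc_sub (fun x : ℝ => max x 0) (fun x : ℝ => max (-x) 0) a (by fun_prop) (by fun_prop)]
    conv_rhs => rw [← cfc_id ℝ a]
    apply cfc_congr
    intro x _
    rcases le_total x 0 with h | h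
    · simp [max_eq_right h, max_eq_left (neg_nonneg.mpr h)]
    · simp [max_eq_left h, max_eq_right (neg_nonpos.mpr h)]
  · intro y hy
    have e1 : cfc (fun x : ℝ => max x 0) a + cfc (fun x : ℝ => max (-x) 0) a =
        cfc (fun x : ℝ => Real.sqrt x) (a * a) := by
      rw [← cfc_add a (fun x : ℝ => max x 0) (fun x : ℝ => max (-x) 0) (by fun_prop) (by fun_prop)]
      have e2 : a * a = cfc (fun x : ℝ => x * x) a := by
        rw [cfc_mul (fun x : ℝ => x) (fun x : ℝ => x) a (by fun_prop) (by fun_prop)]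
        rw [cfc_id' ℝ a]
      rw [e2, ← cfc_comp (fun x : ℝ => Real.sqrt x) (fun x : ℝ => x * x) a]
      apply cfc_congr
      intro x _
      simp only [Function.comp, Real.sqrt_mul_self_eq_abs]
      rcases le_total x 0 with h | h
      · simp [max_eq_right h, max_eq_left (neg_nonneg.mpr h), abs_of_nonpos h]
      · simp [max_eq_left h, max_eq_right (neg_nonpos.mpr h), abs_of_nonneg h]
    rw [e1]
    have hsq : star (a * a) = a * a := by rw [star_mul, ha]
    have hc : Commute (a * a) y := hy.symm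
    have := (hc.cfc (f := fun x : ℝ => Real.sqrt x) (by rw [hsq]; exact hc))
    exact this.symm.eq

end

theorem t_POS : S_POS.{u} := by
  intro A _ hS hC e f he hf
  have hes : star e = e := he.isSelfAdjoint
  have hfs : star f = f := hf.isSelfAdjoint
  have hee : e * e = e := he.isIdempotentElem
  have hff : f * f = f := hf.isIdempotentElem
  obtain ⟨e2, he2, e2e, ee2, e2f, hu2⟩ := exists_orth hS e f he hf
  obtain ⟨f2, hf2, f2f, ff2, f2e, hw2⟩ := exists_orth hS f e hf he
  have he2s : star e2 = e2 := he2.isSelfAdjoint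
  have hf2s : star f2 = f2 := hf2.isSelfAdjoint
  have he22 : e2 * e2 = e2 := he2.isIdempotentElem
  have hf22 : f2 * f2 = f2 := hf2.isIdempotentElem
  have fe2 : f * e2 = 0 := by
    have := congrArg star e2f
    rwa [star_mul, hfs, he2s, star_zero] at this
  have ef2 : e * f2 = 0 := by
    have := congrArg star f2e
    rwa [star_mul, hes, hf2s, star_zero] at this
  have e2f2 : e2 * f2 = 0 := by rw [← ff2, ← mul_assoc, e2f, zero_mul]
  have f2e2 : f2 * e2 = 0 := by rw [← ee2, ← mul_assoc, f2e, zero_mul]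
  obtain ⟨e1, he1def⟩ : ∃ e1, e1 = e - e2 := ⟨_, rfl⟩
  obtain ⟨f1, hf1def⟩ : ∃ f1, f1 = f - f2 := ⟨_, rfl⟩
  have he1s : star e1 = e1 := by rw [he1def, star_sub, hes, he2s]
  have hf1s : star f1 = f1 := by rw [hf1def, star_sub, hfs, hf2s]
  have he11 : e1 * e1 = e1 := by
    rw [he1def, sub_mul, mul_sub, mul_sub, hee, ee2, e2e, he22, sub_self, sub_zero]
  have hf11 : f1 * f1 = f1 := by
    rw [hf1def, sub_mul, mul_sub, mul_sub, hff, ff2, f2f, hf22, sub_self, sub_zero]
  have he1 : PJ e1 := ⟨he11, he1s⟩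
  have hf1 : PJ f1 := ⟨hf11, hf1s⟩
  have e1e2 : e1 * e2 = 0 := by rw [he1def, sub_mul, ee2, he22, sub_self]
  have f1f2 : f1 * f2 = 0 := by rw [hf1def, sub_mul, ff2, hf22, sub_self]
  have e2e1 : e2 * e1 = 0 := by rw [he1def, mul_sub, e2e, he22, sub_self]
  have f2f1 : f2 * f1 = 0 := by rw [hf1def, mul_sub, f2f, hf22, sub_self]
  have f2e1 : f2 * e1 = 0 := by rw [he1def, mul_sub, f2e, f2e2, sub_self]
  have e2f1 : e2 * f1 = 0 := by rw [hf1def, mul_sub, e2f, e2f2, sub_self]
  have ee1 : e * e1 = e1 := by rw [he1def, mul_sub, hee, ee2]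
  have ff1 : f * f1 = f1 := by rw [hf1def, mul_sub, hff, ff2]
  have esum : e = e1 + e2 := by rw [he1def, sub_add_cancel]
  have fsum : f = f1 + f2 := by rw [hf1def, sub_add_cancel]
  obtain ⟨p, hp, e1p, f1p, hpx⟩ := exists_sup hS e1 f1 he1 hf1
  have hps : star p = p := hp.isSelfAdjoint
  have hpp : p * p = p := hp.isIdempotentElem
  have pe1 : p * e1 = e1 := by
    have := congrArg star e1p
    rwa [star_mul, hps, he1s] at this
  have pf1 : p * f1 = f1 := by
    have := congrArg star f1p
    rwa [star_mul, hps, hf1s] at this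
  obtain ⟨a, hadef⟩ : ∃ a, a = e1 + f1 - p := ⟨_, rfl⟩
  have has : star a = a := by rw [hadef, star_sub, star_add, he1s, hf1s, hps]
  have pa : p * a = a := by rw [hadef, mul_sub, mul_add, pe1, pf1, hpp]
  have ap : a * p = a := by rw [hadef, sub_mul, add_mul, e1p, f1p, hpp]
  have ae1 : a * e1 = f1 * e1 := by
    rw [hadef, sub_mul, add_mul, he11, pe1]; abel
  have f1a : f1 * a = f1 * e1 := by
    rw [hadef, mul_sub, mul_add, hf11, f1p]; abel
  have e1a : e1 * a = e1 * f1 := by
    rw [hadef, mul_sub, mul_add, he11, e1p]; abel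
  have af1 : a * f1 = e1 * f1 := by
    rw [hadef, sub_mul, add_mul, hf11, pf1]; abel
  have aae1 : e1 * (a * a) = (a * a) * e1 := by
    rw [← mul_assoc, e1a, mul_assoc, f1a, mul_assoc, ae1, ← mul_assoc, ← mul_assoc, af1]
  have aaf1 : f1 * (a * a) = (a * a) * f1 := by
    rw [← mul_assoc, f1a, mul_assoc, e1a, mul_assoc, af1, ← mul_assoc, ← mul_assoc, ae1]
  -- the range projection of `a` is `p`
  have hker : ∀ q : A, a * q = 0 → p * q = q → q = 0 := by
    intro q hq hpq
    have t1 : e1 * q = 0 := by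
      have w1 : f1 * (e1 * q) = 0 := by rw [← mul_assoc, ← f1a, mul_assoc, hq, mul_zero]
      have w2 : f2 * (e1 * q) = 0 := by rw [← mul_assoc, f2e1, zero_mul]
      have w3 : f * (e1 * q) = 0 := by rw [fsum, add_mul, w1, w2, add_zero]
      have w4 : e * (e1 * q) = e1 * q := by rw [← mul_assoc, ee1]
      have w5 := hu2 _ w4 w3
      rw [← w5, ← mul_assoc, e2e1, zero_mul]
    have t2 : f1 * q = 0 := by
      have w1 : e1 * (f1 * q) = 0 := by rw [← mul_assoc, ← e1a, mul_assoc, hq, mul_zero]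
      have w2 : e2 * (f1 * q) = 0 := by rw [← mul_assoc, e2f1, zero_mul]
      have w3 : e * (f1 * q) = 0 := by rw [esum, add_mul, w1, w2, add_zero]
      have w4 : f * (f1 * q) = f1 * q := by rw [← mul_assoc, ff1]
      have w5 := hw2 _ w4 w3
      rw [← w5, ← mul_assoc, f2f1, zero_mul]
    have t3 : star q * p = 0 := by
      apply hpx
      · have := congrArg star t1
        rwa [star_mul, he1s, star_zero] at this
      · have := congrArg star t2
        rwa [star_mul, hf1s, star_zero] at this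
    have t4 : p * q = 0 := by
      have := congrArg star t3
      rwa [star_mul, star_star, hps, star_zero] at this
    rw [← hpq, t4]
  obtain ⟨R, hR, Ra, aR, hRx⟩ := exists_RP hS hC a has
  have hRp : R = p := by
    have w1 : (1 - p) * R = 0 := hRx _ (by rw [sub_mul, one_mul, pa, sub_self])
    have w2 : p * R = R := by
      rw [sub_mul, one_mul, sub_eq_zero] at w1
      exact w1.symm
    have w3 := hker (p - R) (by rw [mul_sub, ap, aR, sub_self]) (by rw [mul_sub, hpp, w2])
    rw [sub_eq_zero] at w3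
    exact w3.symm
  subst hRp
  obtain ⟨b, c, hbs, hcs, hbc, hcb, hbca, hcomm⟩ := exists_posneg a has
  obtain ⟨P, hP, Pb, bP, hPx⟩ := exists_RP hS hC b hbs
  obtain ⟨Q, hQ, Qc, cQ, hQx⟩ := exists_RP hS hC c hcs
  have hPs : star P = P := hP.isSelfAdjoint
  have hQs : star Q = Q := hQ.isSelfAdjoint
  have hPP : P * P = P := hP.isIdempotentElem
  have hQQ : Q * Q = Q := hQ.isIdempotentElem
  have cP : c * P = 0 := hPx _ hcb
  have bQ : b * Q = 0 := hQx _ hbc
  have Pc : P * c = 0 := by
    have := congrArg star cP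
    rwa [star_mul, hPs, hcs, star_zero] at this
  have Qb : Q * b = 0 := by
    have := congrArg star bQ
    rwa [star_mul, hQs, hbs, star_zero] at this
  have PQ : P * Q = 0 := hQx _ Pc
  have QP : Q * P = 0 := hPx _ Qb
  obtain ⟨m, hm⟩ : ∃ m, m = b + c := ⟨_, rfl⟩
  obtain ⟨s, hs⟩ : ∃ s, s = P - Q := ⟨_, rfl⟩
  have hss : star s = s := by rw [hs, star_sub, hPs, hQs]
  have sm : s * m = a := by
    rw [hs, hm, sub_mul, mul_add, mul_add, Pb, Pc, Qb, Qc, ← hbca]; abel
  have ms : m * s = a := by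
    rw [hs, hm, add_mul, mul_sub, mul_sub, bP, bQ, cP, cQ, ← hbca]; abel
  have hs2 : s * s = P + Q := by
    rw [hs, sub_mul, mul_sub, mul_sub, hPP, PQ, QP, hQQ]; abel
  have hs2a : s * s * a = a := by
    rw [hs2, ← hbca, add_mul, mul_sub, mul_sub, Pb, Pc, Qb, Qc]; abel
  have w0 : (1 - R) * a = 0 := by rw [sub_mul, one_mul, Ra, sub_self]
  have aP : a * P = b := by rw [← hbca, sub_mul, bP, cP, sub_zero]
  have aQ : a * Q = -c := by rw [← hbca, sub_mul, bQ, cQ, zero_sub]
  have RP' : R * P = P := by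
    have w1 : (1 - R) * b = 0 := by rw [← aP, ← mul_assoc, w0, zero_mul]
    have w2 := hPx _ w1
    rw [sub_mul, one_mul, sub_eq_zero] at w2
    exact w2.symm
  have RQ' : R * Q = Q := by
    have w1 : (1 - R) * c = 0 := by
      have : (1 - R) * -c = 0 := by rw [← aQ, ← mul_assoc, w0, zero_mul]
      rwa [mul_neg, neg_eq_zero] at this
    have w2 := hQx _ w1
    rw [sub_mul, one_mul, sub_eq_zero] at w2
    exact w2.symm
  have PR : P * R = P := by
    have := congrArg star RP'
    rwa [star_mul, hPs, hps] at this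
  have QR : Q * R = Q := by
    have := congrArg star RQ'
    rwa [star_mul, hQs, hps] at this
  have hs2R : s * s = R := by
    have w1 : (R - s * s) * a = 0 := by rw [sub_mul, hs2a, Ra, sub_self]
    have w2 := hRx _ w1
    rw [sub_mul, hpp, hs2, add_mul, PR, QR, sub_eq_zero] at w2
    rw [hs2]; exact w2.symm
  have sR : s * R = s := by rw [hs, sub_mul, PR, QR]
  have me1 : e1 * m = m * e1 := by rw [hm]; exact hcomm e1 aae1
  have hx0 : s * e1 - f1 * s = 0 := by
    have w1 : (s * e1 - f1 * s) * m = 0 := by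
      rw [sub_mul, mul_assoc, me1, ← mul_assoc, sm, mul_assoc f1, sm, ae1, f1a, sub_self]
    have w2 : (s * e1 - f1 * s) * a = 0 := by rw [← ms, ← mul_assoc, w1, zero_mul]
    have w3 := hRx _ w2
    rwa [sub_mul, mul_assoc, e1p, mul_assoc, sR] at w3
  have hse : s * e1 = f1 * s := sub_eq_zero.mp hx0
  refine ⟨e1, e2, f1, f2, he1, he2, hf1, hf2, e1e2, f1f2, esum.symm, fsum.symm, ?_, e2f, f2e⟩
  refine ⟨s * e1, ?_, ?_⟩
  · rw [star_mul, hss, he1s, mul_assoc, ← mul_assoc s s e1, hs2R, pe1, he11]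
  · rw [star_mul, hss, he1s, hse, mul_assoc f1 s, ← mul_assoc s e1, hse, mul_assoc f1 s s, hs2R,
      f1p, hf11]

end Pool.Agent.U694.AWQ
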